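import Pool.Agent.R59.DA.Stm

/-! DA-FREE (MP_cbc67c_co), helper611 -/

namespace R611.DAFREE

open Classical R59.DA

theorem one (r : ℕ) (V I : Type) [Fintype V] [Fintype I] (D : V → V → Prop) (g : Fin r → I)
    (hg : Function.Injective g) :
    (Finset.univ.filter (fun x : I → V => x ∘ g ∈ TT D r)).card * (Fintype.card V) ^ r
      ≤ (TT D r).card * (Fintype.card V) ^ (Fintype.card I) := by
  have h : ((Finset.univ.filter (fun x : I → V => x ∘ g ∈ TT D r)) ×ˢ
      (Finset.univ : Finset (Fin r → V))).card ≤
      ((TT D r) ×ˢ (Finset.univ : Finset (I → V))).card := by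
    apply Finset.card_le_card_of_injOn
      (fun z : (I → V) × (Fin r → V) => (z.1 ∘ g, Function.extend g z.2 z.1))
    · intro z hz
      have hz' := Finset.mem_product.1 hz
      exact Finset.mem_product.2 ⟨(Finset.mem_filter.1 hz'.1).2, Finset.mem_univ _⟩
    · rintro ⟨x, y⟩ _ ⟨x', y'⟩ _ hxy
      simp only [Prod.mk.injEq] at hxy
      obtain ⟨h1, h2⟩ := hxy
      have hy : y = y' := by
        funext k
        have := congrFun h2 (g k)
        rwa [hg.extend_apply, hg.extend_apply] at this
      have hx : x = x' := by
        funext i
        by_cases hi : ∃ k, g k = i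
        · obtain ⟨k, rfl⟩ := hi
          exact congrFun h1 k
        · have := congrFun h2 i
          rwa [Function.extend_apply' _ _ _ hi, Function.extend_apply' _ _ _ hi] at this
      rw [hx, hy]
  rwa [Finset.card_product, Finset.card_product, Finset.card_univ, Finset.card_univ,
    Fintype.card_fun, Fintype.card_fun, Fintype.card_fin] at h

theorem free : SFREE := by
  intro r V I _ _ D hD
  have hN : (Finset.univ.filter (fun x : I → V =>
      ∃ g : Fin r → I, ∀ i j : Fin r, i < j → D (x (g i)) (x (g j)))).card
      * (Fintype.card V) ^ r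
    ≤ (Fintype.card I) ^ r * (TT D r).card * (Fintype.card V) ^ (Fintype.card I) := by
    have hsub : (Finset.univ.filter (fun x : I → V =>
        ∃ g : Fin r → I, ∀ i j : Fin r, i < j → D (x (g i)) (x (g j)))) ⊆
        (Finset.univ.filter (fun g : Fin r → I => Function.Injective g)).biUnion
          (fun g => Finset.univ.filter (fun x : I → V => x ∘ g ∈ TT D r)) := by
      intro x hx
      obtain ⟨g, hg⟩ := (Finset.mem_filter.1 hx).2
      refine Finset.mem_biUnion.2 ⟨g, Finset.mem_filter.2 ⟨Finset.mem_univ _, ?_⟩,
        Finset.mem_filter.2 ⟨Finset.mem_univ _, Finset.mem_filter.2 ⟨Finset.mem_univ _, hg⟩⟩⟩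
      intro i j hij
      by_contra hne
      rcases lt_or_gt_of_ne hne with h | h
      · have := hg i j h
        rw [hij] at this
        exact hD _ this
      · have := hg j i h
        rw [hij] at this
        exact hD _ this
    have h1 : (Finset.univ.filter (fun x : I → V =>
        ∃ g : Fin r → I, ∀ i j : Fin r, i < j → D (x (g i)) (x (g j)))).card ≤
        ∑ g ∈ Finset.univ.filter (fun g : Fin r → I => Function.Injective g),
          (Finset.univ.filter (fun x : I → V => x ∘ g ∈ TT D r)).card :=
      (Finset.card_le_card hsub).trans Finset.card_biUnion_le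
    calc _ ≤ (∑ g ∈ Finset.univ.filter (fun g : Fin r → I => Function.Injective g),
          (Finset.univ.filter (fun x : I → V => x ∘ g ∈ TT D r)).card) * (Fintype.card V) ^ r :=
          Nat.mul_le_mul_right _ h1
      _ = ∑ g ∈ Finset.univ.filter (fun g : Fin r → I => Function.Injective g),
          (Finset.univ.filter (fun x : I → V => x ∘ g ∈ TT D r)).card * (Fintype.card V) ^ r :=
          Finset.sum_mul _ _ _
      _ ≤ ∑ g ∈ Finset.univ.filter (fun g : Fin r → I => Function.Injective g),
          (TT D r).card * (Fintype.card V) ^ (Fintype.card I) :=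
          Finset.sum_le_sum fun g hg => one r V I D g (Finset.mem_filter.1 hg).2
      _ = (Finset.univ.filter (fun g : Fin r → I => Function.Injective g)).card *
          ((TT D r).card * (Fintype.card V) ^ (Fintype.card I)) := by
          rw [Finset.sum_const, smul_eq_mul]
      _ ≤ (Fintype.card I) ^ r * ((TT D r).card * (Fintype.card V) ^ (Fintype.card I)) := by
          apply Nat.mul_le_mul_right
          calc (Finset.univ.filter (fun g : Fin r → I => Function.Injective g)).card
              ≤ (Finset.univ : Finset (Fin r → I)).card := Finset.card_filter_le _ _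
            _ = (Fintype.card I) ^ r := by
                rw [Finset.card_univ, Fintype.card_fun, Fintype.card_fin]
      _ = _ := by ring
  exact_mod_cast hN

end R611.DAFREE
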