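import Mathlib

/-!
# Dense cyclic orders: linear order from a pivot, back-and-forth, counting types
-/

namespace Pool.Agent.R611

open FirstOrder Language

/-- Dense cyclic order without endpoints, as a ternary relation. -/
structure DCO {M : Type*} (R : M → M → M → Prop) : Prop where
  cyc : ∀ a b c, R a b c → R b c a
  asymm : ∀ a b c, R a b c → ¬ R a c b
  trans : ∀ a b c d, R a b c → R a c d → R a b d
  total : ∀ a b c, a ≠ b → b ≠ c → a ≠ c → R a b c ∨ R a c b
  dense : ∀ a b, a ≠ b → ∃ c, R a c b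
  nontriv : ∃ a b : M, a ≠ b

/-- The cyclic relation of a linear order. -/
def cycRel' {M : Type*} [LT M] (x y z : M) : Prop :=
  (x < y ∧ y < z) ∨ (y < z ∧ z < x) ∨ (z < x ∧ x < y)

namespace DCO

variable {M : Type*} {R : M → M → M → Prop}

theorem irr1 (h : DCO R) (a b : M) : ¬ R a b b := fun H => h.asymm _ _ _ H H
theorem irr2 (h : DCO R) (a b : M) : ¬ R a a b := fun H => by
  have := h.cyc _ _ _ H
  have h2 := h.cyc _ _ _ this
  exact h.irr1 _ _ h2
theorem irr3 (h : DCO R) (a b : M) : ¬ R a b a := fun H => by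
  have := h.cyc _ _ _ H
  exact h.irr1 _ _ this

/-- strict order with pivot `p` at the bottom -/
def plt (R : M → M → M → Prop) (p : M) (x y : M) : Prop := R p x y ∨ (x = p ∧ y ≠ p)

theorem plt_irrefl (h : DCO R) (p x : M) : ¬ plt R p x x := by
  rintro (H | ⟨H1, H2⟩)
  · exact h.irr1 _ _ H
  · exact H2 H1

theorem plt_trans (h : DCO R) (p : M) {x y z : M} (h1 : plt R p x y) (h2 : plt R p y z) :
    plt R p x z := by
  rcases h1 with h1 | ⟨h1, h1'⟩
  · rcases h2 with h2 | ⟨h2, h2'⟩
    · exact Or.inl (h.trans _ _ _ _ h1 h2)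
    · subst h2; exact absurd h1 (h.irr3 _ _)
  · rcases h2 with h2 | ⟨h2, h2'⟩
    · refine Or.inr ⟨h1, ?_⟩
      rintro rfl
      exact h.irr3 _ _ h2
    · exact absurd h2 h1'

theorem plt_total (h : DCO R) (p : M) {x y : M} (hne : x ≠ y) : plt R p x y ∨ plt R p y x := by
  by_cases hx : x = p
  · exact Or.inl (Or.inr ⟨hx, fun hy => hne (hx.trans hy.symm)⟩)
  by_cases hy : y = p
  · exact Or.inr (Or.inr ⟨hy, hx⟩)
  rcases h.total p x y (Ne.symm hx) hne (Ne.symm hy) with H | H
  · exact Or.inl (Or.inl H)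
  · exact Or.inr (Or.inl H)

/-- The linear order with the pivot at the bottom. -/
@[reducible] noncomputable def lin (h : DCO R) (p : M) : LinearOrder M :=
  { le := fun x y => x = y ∨ plt R p x y
    lt := plt R p
    le_refl := fun x => Or.inl rfl
    le_trans := by
      intro x y z h1 h2
      rcases h1 with rfl | h1
      · exact h2
      · rcases h2 with rfl | h2
        · exact Or.inr h1
        · exact Or.inr (h.plt_trans p h1 h2)
    lt_iff_le_not_ge := by
      intro x y
      constructor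
      · intro H
        refine ⟨Or.inr H, ?_⟩
        rintro (rfl | H2)
        · exact h.plt_irrefl _ _ H
        · exact h.plt_irrefl _ _ (h.plt_trans p H H2)
      · rintro ⟨H1, H2⟩
        rcases H1 with rfl | H1
        · exact absurd (Or.inl rfl) H2
        · exact H1
    le_antisymm := by
      intro x y h1 h2
      rcases h1 with rfl | h1
      · rfl
      · rcases h2 with rfl | h2
        · rfl
        · exact absurd (h.plt_trans p h1 h2) (h.plt_irrefl _ _)
    le_total := by
      intro x y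
      by_cases hxy : x = y
      · exact Or.inl (Or.inl hxy)
      · rcases h.plt_total p hxy with H | H
        · exact Or.inl (Or.inr H)
        · exact Or.inr (Or.inr H)
    toDecidableLE := Classical.decRel _
    toDecidableEq := Classical.decEq _
    toDecidableLT := Classical.decRel _ }

theorem lin_lt (h : DCO R) (p x y : M) : (h.lin p).lt x y ↔ plt R p x y := Iff.rfl

theorem lin_bot (h : DCO R) (p x : M) : (h.lin p).le p x := by
  by_cases hx : p = x
  · exact Or.inl hx
  · exact Or.inr (Or.inr ⟨rfl, fun H => hx H.symm⟩)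

theorem lin_dense (h : DCO R) (p : M) : @DenselyOrdered M (h.lin p).toLT := by
  refine @DenselyOrdered.mk M (h.lin p).toLT ?_
  intro x y hxy
  change ∃ z, plt R p x z ∧ plt R p z y
  rcases (hxy : plt R p x y) with H | ⟨H1, H2⟩
  · have hne : x ≠ y := by rintro rfl; exact h.irr1 _ _ H
    obtain ⟨z, hz⟩ := h.dense x y hne
    have h1 : R x y p := h.cyc _ _ _ H
    have h2 : R x z p := h.trans _ _ _ _ hz h1
    have h3 : R p x z := h.cyc _ _ _ (h.cyc _ _ _ h2)
    have h4 : R y p x := h.cyc _ _ _ h1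
    have h5 : R y x z := h.cyc _ _ _ (h.cyc _ _ _ hz)
    have h6 : R y p z := h.trans _ _ _ _ h4 h5
    exact ⟨z, Or.inl h3, Or.inl (h.cyc _ _ _ h6)⟩
  · subst H1
    obtain ⟨z, hz⟩ := h.dense x y (Ne.symm H2)
    refine ⟨z, Or.inr ⟨rfl, ?_⟩, Or.inl hz⟩
    rintro rfl
    exact h.irr2 _ _ hz

theorem lin_noMax (h : DCO R) (p : M) : @NoMaxOrder M (h.lin p).toLT := by
  refine @NoMaxOrder.mk M (h.lin p).toLT ?_
  intro x
  change ∃ z, plt R p x z
  by_cases hx : x = p
  · subst hx
    obtain ⟨a, b, hab⟩ := h.nontriv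
    by_cases ha : a = x
    · exact ⟨b, Or.inr ⟨rfl, fun H => hab (ha.trans H.symm)⟩⟩
    · exact ⟨a, Or.inr ⟨rfl, ha⟩⟩
  · obtain ⟨z, hz⟩ := h.dense x p hx
    exact ⟨z, Or.inl (h.cyc _ _ _ (h.cyc _ _ _ hz))⟩

theorem rel_iff_lin (h : DCO R) (p x y z : M) :
    R x y z ↔ (plt R p x y ∧ plt R p y z) ∨ (plt R p y z ∧ plt R p z x) ∨
      (plt R p z x ∧ plt R p x y) := by
  have key1 : ∀ x y z, plt R p x y → plt R p y z → R x y z := by
    intro x y z h1 h2
    rcases h2 with h2 | ⟨h2, h2'⟩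
    · rcases h1 with h1 | ⟨h1, h1'⟩
      · -- R p x y, R p y z
        have e1 : R y z p := h.cyc _ _ _ h2
        have e2 : R y p x := h.cyc _ _ _ (h.cyc _ _ _ h1)
        have e3 : R y z x := h.trans _ _ _ _ e1 e2
        exact h.cyc _ _ _ (h.cyc _ _ _ e3)
      · subst h1; exact h2
    · subst h2
      exact absurd (Or.inr ⟨rfl, h2'⟩ : plt R y y z) (by
        intro _
        rcases h1 with h1 | ⟨h1, h1'⟩
        · exact h.irr3 _ _ h1
        · exact h1' rfl)
  constructor
  · intro H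
    have hxy : x ≠ y := by rintro rfl; exact h.irr2 _ _ H
    have hyz : y ≠ z := by rintro rfl; exact h.irr1 _ _ H
    have hxz : x ≠ z := by rintro rfl; exact h.irr3 _ _ H
    have neg : ¬ R x z y := h.asymm _ _ _ H
    rcases h.plt_total p hxy with a | a <;> rcases h.plt_total p hyz with b | b <;>
      rcases h.plt_total p hxz with c | c
    · exact Or.inl ⟨a, b⟩
    · exact Or.inl ⟨a, b⟩
    · exact absurd (key1 _ _ _ c b) neg
    · exact Or.inr (Or.inr ⟨c, a⟩)
    · exact Or.inr (Or.inl ⟨b, by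
        exact absurd (h.cyc _ _ _ (key1 _ _ _ a c)) neg⟩)
    · exact Or.inr (Or.inl ⟨b, c⟩)
    · exact absurd (h.plt_trans p (h.plt_trans p c b) a) (h.plt_irrefl _ _)
    · exact absurd (h.cyc _ _ _ (h.cyc _ _ _ (key1 _ _ _ b a))) neg
  · rintro (⟨a, b⟩ | ⟨a, b⟩ | ⟨a, b⟩)
    · exact key1 _ _ _ a b
    · exact h.cyc _ _ _ (h.cyc _ _ _ (key1 _ _ _ a b))
    · exact h.cyc _ _ _ (key1 _ _ _ a b)

end DCO

end Pool.Agent.R611
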