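import Pool.Agent.R611.Cyc

/-!
# Back-and-forth for dense cyclic orders
-/

namespace Pool.Agent.R611

open FirstOrder Language

/-- finite partial isomorphisms (as sets of pairs) -/
def Good {M : Type*} (R : M → M → M → Prop) (S : Set (M × M)) : Prop :=
  (∀ a ∈ S, ∀ b ∈ S, (a.1 = b.1 ↔ a.2 = b.2)) ∧
  ∀ a ∈ S, ∀ b ∈ S, ∀ c ∈ S, (R a.1 b.1 c.1 ↔ R a.2 b.2 c.2)

theorem extend_lin {M M' : Type*} [LinearOrder M] [LinearOrder M'] [DenselyOrdered M']
    [NoMaxOrder M'] (S : Set (M × M')) (hfin : S.Finite)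
    (hS : ∀ s ∈ S, ∀ t ∈ S, (s.1 < t.1 ↔ s.2 < t.2)) (p : M × M') (hp : p ∈ S)
    (a : M) (hpa : p.1 < a) (ha : ∀ s ∈ S, s.1 ≠ a) :
    ∃ b, ∀ s ∈ S, (a < s.1 ↔ b < s.2) ∧ (s.1 < a ↔ s.2 < b) := by
  classical
  set F := hfin.toFinset with hF
  have hmem : ∀ s, s ∈ F ↔ s ∈ S := fun s => hfin.mem_toFinset
  set lo := (F.filter (fun s => s.1 < a)).image Prod.snd with hlo
  set hi := (F.filter (fun s => a < s.1)).image Prod.snd with hhi
  have hlo_ne : lo.Nonempty := ⟨p.2, by
    rw [hlo]; exact Finset.mem_image_of_mem _ (Finset.mem_filter.2 ⟨(hmem _).2 hp, hpa⟩)⟩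
  have hlohi : ∀ x ∈ lo, ∀ y ∈ hi, x < y := by
    intro x hx y hy
    rw [hlo, Finset.mem_image] at hx
    rw [hhi, Finset.mem_image] at hy
    obtain ⟨s, hs, rfl⟩ := hx
    obtain ⟨t, ht, rfl⟩ := hy
    rw [Finset.mem_filter] at hs ht
    exact (hS s ((hmem _).1 hs.1) t ((hmem _).1 ht.1)).1 (hs.2.trans ht.2)
  obtain ⟨b, hb1, hb2⟩ : ∃ b, (∀ x ∈ lo, x < b) ∧ (∀ y ∈ hi, b < y) := by
    by_cases hne : hi.Nonempty
    · obtain ⟨b, hb1, hb2⟩ := exists_between (hlohi _ (lo.max'_mem hlo_ne) _ (hi.min'_mem hne))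
      exact ⟨b, fun x hx => lt_of_le_of_lt (lo.le_max' _ hx) hb1,
        fun y hy => lt_of_lt_of_le hb2 (hi.min'_le _ hy)⟩
    · obtain ⟨b, hb⟩ := exists_gt (lo.max' hlo_ne)
      refine ⟨b, fun x hx => lt_of_le_of_lt (lo.le_max' _ hx) hb, fun y hy => ?_⟩
      exact absurd ⟨y, hy⟩ hne
  have h1 : ∀ s ∈ S, s.1 < a → s.2 < b := fun s hs hsa => hb1 _ (by
    rw [hlo]; exact Finset.mem_image_of_mem _ (Finset.mem_filter.2 ⟨(hmem _).2 hs, hsa⟩))
  have h2 : ∀ s ∈ S, a < s.1 → b < s.2 := fun s hs hsa => hb2 _ (by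
    rw [hhi]; exact Finset.mem_image_of_mem _ (Finset.mem_filter.2 ⟨(hmem _).2 hs, hsa⟩))
  refine ⟨b, fun s hs => ⟨⟨h2 s hs, fun H => ?_⟩, ⟨h1 s hs, fun H => ?_⟩⟩⟩
  · rcases lt_trichotomy a s.1 with h | h | h
    · exact h
    · exact absurd h.symm (ha s hs)
    · exact absurd (h1 s hs h) (not_lt.2 H.le)
  · rcases lt_trichotomy a s.1 with h | h | h
    · exact absurd (h2 s hs h) (not_lt.2 H.le)
    · exact absurd h.symm (ha s hs)
    · exact h

namespace DCO

variable {M : Type*} {R : M → M → M → Prop}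

theorem good_of_lt (h : DCO R) (p p' : M) (S : Set (M × M))
    (hS : ∀ s ∈ S, ∀ t ∈ S, (plt R p s.1 t.1 ↔ plt R p' s.2 t.2)) : Good R S := by
  constructor
  · intro a ha b hb
    constructor
    · intro e
      by_contra hne
      rcases h.plt_total p' hne with H | H
      · have := (hS a ha b hb).2 H
        rw [e] at this
        exact h.plt_irrefl _ _ this
      · have := (hS b hb a ha).2 H
        rw [e] at this
        exact h.plt_irrefl _ _ this
    · intro e
      by_contra hne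
      rcases h.plt_total p hne with H | H
      · have := (hS a ha b hb).1 H
        rw [e] at this
        exact h.plt_irrefl _ _ this
      · have := (hS b hb a ha).1 H
        rw [e] at this
        exact h.plt_irrefl _ _ this
  · intro a ha b hb c hc
    rw [h.rel_iff_lin p, h.rel_iff_lin p', hS a ha b hb, hS b hb c hc, hS c hc a ha]

theorem lt_of_good {S : Set (M × M)} (hS : Good R S) {p : M × M} (hp : p ∈ S)
    {s t : M × M} (hs : s ∈ S) (ht : t ∈ S) : plt R p.1 s.1 t.1 ↔ plt R p.2 s.2 t.2 := by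
  unfold plt
  rw [hS.2 p hp s hs t ht, hS.1 s hs p hp, Ne, Ne, hS.1 t ht p hp]

theorem good_swap {S : Set (M × M)} (hS : Good R S) : Good R (Prod.swap '' S) := by
  constructor
  · rintro _ ⟨a, ha, rfl⟩ _ ⟨b, hb, rfl⟩
    exact (hS.1 a ha b hb).symm
  · rintro _ ⟨a, ha, rfl⟩ _ ⟨b, hb, rfl⟩ _ ⟨c, hc, rfl⟩
    exact (hS.2 a ha b hb c hc).symm

theorem good_mono {S T : Set (M × M)} (hT : Good R T) (hST : S ⊆ T) : Good R S :=
  ⟨fun a ha b hb => hT.1 a (hST ha) b (hST hb),
    fun a ha b hb c hc => hT.2 a (hST ha) b (hST hb) c (hST hc)⟩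

theorem extend (h : DCO R) (S : Set (M × M)) (hfin : S.Finite) (hS : Good R S) (a : M) :
    ∃ b, Good R (insert (a, b) S) := by
  by_cases ha : ∃ s ∈ S, s.1 = a
  · obtain ⟨s, hs, rfl⟩ := ha
    refine ⟨s.2, ?_⟩
    rw [Set.insert_eq_of_mem (by exact hs)]
    exact hS
  push Not at ha
  by_cases hne : S.Nonempty
  · obtain ⟨p, hp⟩ := hne
    have hpa : plt R p.1 p.1 a := Or.inr ⟨rfl, fun H => ha p hp H.symm⟩
    obtain ⟨b, hb⟩ := @extend_lin M M (h.lin p.1) (h.lin p.2) (h.lin_dense p.2)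
      (h.lin_noMax p.2) S hfin (fun s hs t ht => lt_of_good hS hp hs ht) p hp a hpa ha
    refine ⟨b, h.good_of_lt p.1 p.2 _ ?_⟩
    rintro s (rfl | hs) t (rfl | ht)
    · exact ⟨fun H => absurd H (h.plt_irrefl _ _), fun H => absurd H (h.plt_irrefl _ _)⟩
    · exact (hb t ht).1
    · exact (hb s hs).2
    · exact lt_of_good hS hp hs ht
  · rw [Set.not_nonempty_iff_eq_empty] at hne
    subst hne
    refine ⟨a, ?_⟩
    constructor
    · rintro s (rfl | hs) t (rfl | ht)
      · exact Iff.rfl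
      · exact absurd ht (Set.notMem_empty _)
      · exact absurd hs (Set.notMem_empty _)
      · exact absurd hs (Set.notMem_empty _)
    · rintro s (rfl | hs) t (rfl | ht) u (rfl | hu)
      · exact Iff.rfl
      all_goals first
        | exact absurd hu (Set.notMem_empty _)
        | exact absurd ht (Set.notMem_empty _)
        | exact absurd hs (Set.notMem_empty _)

/-- extension by finitely many points -/
theorem extend_finset (h : DCO R) (S : Set (M × M)) (hfin : S.Finite) (hS : Good R S)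
    (A : Finset M) : ∃ T, S ⊆ T ∧ T.Finite ∧ Good R T ∧ ∀ a ∈ A, ∃ b, (a, b) ∈ T := by
  classical
  induction A using Finset.induction_on with
  | empty => exact ⟨S, le_rfl, hfin, hS, fun a ha => absurd ha (Finset.notMem_empty _)⟩
  | insert a A _ ih =>
    obtain ⟨T, hST, hTf, hTg, hT⟩ := ih
    obtain ⟨b, hb⟩ := h.extend T hTf hTg a
    refine ⟨insert (a, b) T, hST.trans (Set.subset_insert _ _), hTf.insert _, hb, ?_⟩
    intro x hx
    rcases Finset.mem_insert.1 hx with rfl | hx
    · exact ⟨b, Set.mem_insert _ _⟩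
    · obtain ⟨c, hc⟩ := hT x hx
      exact ⟨c, Set.mem_insert_of_mem _ hc⟩

end DCO

/-- The relation symbols of the language of cyclic orders: one ternary relation symbol. -/
inductive CycSym : ℕ → Type
  | btw : CycSym 3

/-- The language of cyclic orders. -/
def LCyc : FirstOrder.Language := ⟨fun _ => Empty, CycSym⟩

/-- The ternary relation symbol of `LCyc`. -/
def btwSym : LCyc.Relations 3 := CycSym.btw

/-- The ternary relation of an `LCyc`-structure. -/
def relOf (M : Type*) [LCyc.Structure M] (x y z : M) : Prop :=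
  Structure.RelMap btwSym ![x, y, z]

theorem term_var {α : Type*} (t : LCyc.Term α) : ∃ i, t = Term.var i := by
  cases t with
  | var i => exact ⟨i, rfl⟩
  | func f _ => exact f.elim

theorem realize_iff {M : Type*} [LCyc.Structure M] (h : DCO (relOf M)) {α : Type*} {n : ℕ}
    (φ : LCyc.BoundedFormula α n) : ∀ (S : Set (M × M)) (_ : S.Finite) (_ : Good (relOf M) S)
    (v v' : α → M) (xs xs' : Fin n → M) (_ : ∀ i, (v i, v' i) ∈ S)
    (_ : ∀ i, (xs i, xs' i) ∈ S), φ.Realize v xs ↔ φ.Realize v' xs' := by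
  have aux : ∀ {n : ℕ} (S : Set (M × M)) (v v' : α → M) (xs xs' : Fin n → M)
      (_ : ∀ i, (v i, v' i) ∈ S) (_ : ∀ i, (xs i, xs' i) ∈ S) (j : α ⊕ Fin n),
      (Sum.elim v xs j, Sum.elim v' xs' j) ∈ S := by
    intro n S v v' xs xs' h1 h2 j
    cases j with
    | inl i => exact h1 i
    | inr i => exact h2 i
  induction φ with
  | falsum => intros; exact Iff.rfl
  | equal t1 t2 =>
    intro S hf hS v v' xs xs' h1 h2
    obtain ⟨i, rfl⟩ := term_var t1
    obtain ⟨j, rfl⟩ := term_var t2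
    change Sum.elim v xs i = Sum.elim v xs j ↔ Sum.elim v' xs' i = Sum.elim v' xs' j
    exact hS.1 _ (aux S v v' xs xs' h1 h2 i) _ (aux S v v' xs xs' h1 h2 j)
  | rel r ts =>
    intro S hf hS v v' xs xs' h1 h2
    cases r with
    | btw =>
      obtain ⟨i, hi⟩ := term_var (ts 0)
      obtain ⟨j, hj⟩ := term_var (ts 1)
      obtain ⟨k, hk⟩ := term_var (ts 2)
      have key : ∀ (w : α ⊕ Fin _ → M), (fun l => (ts l).realize w) = ![w i, w j, w k] := by
        intro w
        funext l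
        fin_cases l
        · simp [hi]
        · simp [hj]
        · simp [hk]
      change Structure.RelMap (L := LCyc) (CycSym.btw : LCyc.Relations 3)
          (fun l => (ts l).realize (Sum.elim v xs)) ↔
        Structure.RelMap (L := LCyc) (CycSym.btw : LCyc.Relations 3)
          (fun l => (ts l).realize (Sum.elim v' xs'))
      rw [key, key]
      exact hS.2 _ (aux S v v' xs xs' h1 h2 i) _ (aux S v v' xs xs' h1 h2 j) _
        (aux S v v' xs xs' h1 h2 k)
  | imp φ ψ ih1 ih2 =>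
    intro S hf hS v v' xs xs' h1 h2
    have e1 := ih1 S hf hS v v' xs xs' h1 h2
    have e2 := ih2 S hf hS v v' xs xs' h1 h2
    rw [BoundedFormula.realize_imp, BoundedFormula.realize_imp, e1, e2]
  | all φ ih =>
    intro S hf hS v v' xs xs' h1 h2
    rw [BoundedFormula.realize_all, BoundedFormula.realize_all]
    constructor
    · intro H b
      obtain ⟨a, ha⟩ := h.extend (Prod.swap '' S) (hf.image _) (DCO.good_swap hS) b
      have hg : Good (relOf M) (insert (a, b) S) := by
        have := DCO.good_swap ha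
        refine DCO.good_mono this ?_
        rintro x (rfl | hx)
        · exact ⟨(b, a), Set.mem_insert _ _, rfl⟩
        · exact ⟨x.swap, Set.mem_insert_of_mem _ ⟨x, hx, rfl⟩, by simp⟩
      refine (ih (insert (a, b) S) (hf.insert _) hg v v' (Fin.snoc xs a) (Fin.snoc xs' b)
        (fun i => Set.mem_insert_of_mem _ (h1 i)) ?_).1 (H a)
      intro i
      refine Fin.lastCases ?_ (fun i => ?_) i
      · simp
      · simp only [Fin.snoc_castSucc]; exact Set.mem_insert_of_mem _ (h2 i)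
    · intro H a
      obtain ⟨b, hg⟩ := h.extend S hf hS a
      refine (ih (insert (a, b) S) (hf.insert _) hg v v' (Fin.snoc xs a) (Fin.snoc xs' b)
        (fun i => Set.mem_insert_of_mem _ (h1 i)) ?_).2 (H b)
      intro i
      refine Fin.lastCases ?_ (fun i => ?_) i
      · simp
      · simp only [Fin.snoc_castSucc]; exact Set.mem_insert_of_mem _ (h2 i)

theorem formula_iff {M : Type*} [LCyc.Structure M] (h : DCO (relOf M)) {α : Type*}
    (φ : LCyc.Formula α) (S : Set (M × M)) (hf : S.Finite) (hS : Good (relOf M) S)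
    (v v' : α → M) (h1 : ∀ i, (v i, v' i) ∈ S) : φ.Realize v ↔ φ.Realize v' :=
  realize_iff h φ S hf hS v v' _ _ h1 (fun i => Fin.elim0 i)

end Pool.Agent.R611
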