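import Mathlib

/-!
# Independence dimension, VC-density, dp-minimality, weak VC-minimality
-/

namespace Pool.Agent.R611

open FirstOrder Language

universe u v w

variable {L : FirstOrder.Language.{u, v}} (M : Type w) [L.Structure M]

/-- The subset of `M^m` defined by the instance of the partitioned formula
`phi(x_1..x_m; y_1..y_q)` at the parameter tuple `b`. -/
def inst {m q : ℕ} (φ : L.Formula (Fin m ⊕ Fin q)) (b : Fin q → M) : Set (Fin m → M) :=
  {a | φ.Realize (Sum.elim a b)}

/-- A family of subsets of `X` is independent: for every choice of a sign for each member,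
the corresponding intersection of members and complements is nonempty. -/
def IndependentFamily {X : Type*} (𝒜 : Set (Set X)) : Prop :=
  ∀ s : Set X → Prop, ∃ x : X, ∀ B ∈ 𝒜, (x ∈ B ↔ s B)

/-- `phi` has independence dimension at most `d` in `M`: every independent subfamily of the
family of all instances of `phi` has at most `d` members. -/
def IndepDimLE {m q : ℕ} (φ : L.Formula (Fin m ⊕ Fin q)) (d : ℕ) : Prop :=
  ∀ 𝒜 : Set (Set (Fin m → M)), 𝒜 ⊆ Set.range (inst M φ) → IndependentFamily 𝒜 →
    𝒜.encard ≤ d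

/-- Weak VC-minimality (evaluated in the model `M`): every instance `phi(x;b)` in one variable
`x` is a Boolean combination of finitely many instances `psi_i(x;c_i)` of formulas of
independence dimension at most `1`. -/
def WeaklyVCMinimal (L : FirstOrder.Language.{u, v}) (M : Type w) [L.Structure M] : Prop :=
  ∀ (q : ℕ) (φ : L.Formula (Fin 1 ⊕ Fin q)) (b : Fin q → M),
    ∃ (k : ℕ) (r : Fin k → ℕ) (ψ : ∀ i : Fin k, L.Formula (Fin 1 ⊕ Fin (r i)))
      (c : ∀ i : Fin k, Fin (r i) → M) (F : (Fin k → Prop) → Prop),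
      (∀ i, IndepDimLE M (ψ i) 1) ∧
        ∀ a : Fin 1 → M, a ∈ inst M φ b ↔ F (fun i => a ∈ inst M (ψ i) (c i))

/-- dp-minimality (evaluated in the model `M`): there is no pair of formulas
`phi(x;y)`, `psi(x;z)` in one variable `x` and sequences of parameters `b_i`, `c_j` such that
for all `i, j` the set `{phi(x;b_i), psi(x;c_j)}` together with `not phi(x;b_k)` for `k ≠ i` and
`not psi(x;c_l)` for `l ≠ j` is consistent (finitely satisfiable in `M`). -/
def DpMinimal (L : FirstOrder.Language.{u, v}) (M : Type w) [L.Structure M] : Prop :=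
  ¬ ∃ (q r : ℕ) (φ : L.Formula (Fin 1 ⊕ Fin q)) (ψ : L.Formula (Fin 1 ⊕ Fin r))
      (b : ℕ → Fin q → M) (c : ℕ → Fin r → M), ∀ (i j : ℕ) (s t : Finset ℕ),
      ∃ a : Fin 1 → M, a ∈ inst M φ (b i) ∧ a ∈ inst M ψ (c j) ∧
        (∀ k ∈ s, k ≠ i → a ∉ inst M φ (b k)) ∧ (∀ l ∈ t, l ≠ j → a ∉ inst M ψ (c l))

/-- The set of complete `phi`-types over the set `B` of parameter tuples realised in `M`
(a type is recorded as the function telling which `phi(x;b)`, `b ∈ B`, it contains). -/
def phiTypes {m q : ℕ} (φ : L.Formula (Fin m ⊕ Fin q)) (B : Finset (Fin q → M)) :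
    Set (B → Prop) :=
  Set.range fun (a : Fin m → M) (b : B) => a ∈ inst M φ b.1

/-- `pi^*_phi(n)`: the maximum over parameter sets `B` of size `n` of the number of complete
`phi`-types over `B`. -/
noncomputable def piStar {m q : ℕ} (φ : L.Formula (Fin m ⊕ Fin q)) (n : ℕ) : ℕ :=
  sSup {k : ℕ | ∃ B : Finset (Fin q → M), B.card = n ∧ k = (phiTypes M φ B).ncard}

/-- The VC-density of `phi` in `M`: the infimum of all `r ≥ 0` with `pi^*_phi(n) = O(n^r)`,
as an extended nonnegative real. -/
noncomputable def vcDensity {m q : ℕ} (φ : L.Formula (Fin m ⊕ Fin q)) : ENNReal :=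
  ⨅ (r : NNReal) (_ : (fun n : ℕ => (piStar M φ n : ℝ)) =O[Filter.atTop]
    (fun n : ℕ => (n : ℝ) ^ (r : ℝ))), (r : ENNReal)

/-- Low VC-density (evaluated in the model `M`): every formula `phi(x_1..x_m; y)` has
VC-density at most `m`. -/
def LowVCDensity (L : FirstOrder.Language.{u, v}) (M : Type w) [L.Structure M] : Prop :=
  ∀ (m q : ℕ) (φ : L.Formula (Fin m ⊕ Fin q)), vcDensity M φ ≤ m

end Pool.Agent.R611
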