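import Pool.Agent.R611.Cyc2
import Pool.Agent.R611.CycDefs

/-!
# Counting types in dense cyclic orders
-/

namespace Pool.Agent.R611

open FirstOrder Language

section code

variable {M : Type*} {R : M → M → M → Prop}

open Classical in
/-- Code of a tuple over a finite set `P`. -/
noncomputable def code (R : M → M → M → Prop) (p : M) (P : Finset M) {m : ℕ} (a : Fin m → M) :
    (Fin m → Fin (P.card + 1) × Bool) × (Fin m → Fin m → Bool) :=
  (fun i => (⟨(P.filter (fun x => DCO.plt R p x (a i))).card,
      Nat.lt_succ_of_le (Finset.card_filter_le _ _)⟩, decide (a i ∈ P)),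
    fun i j => decide (DCO.plt R p (a i) (a j)))

theorem initial_eq [LinearOrder M] (P : Finset M) (x y : M)
    (hc : (P.filter (fun z => z < x)).card = (P.filter (fun z => z < y)).card) :
    P.filter (fun z => z < x) = P.filter (fun z => z < y) := by
  rcases le_total x y with h | h
  · refine Finset.eq_of_subset_of_card_le ?_ hc.ge
    intro z hz
    rw [Finset.mem_filter] at hz ⊢
    exact ⟨hz.1, hz.2.trans_le h⟩
  · refine (Finset.eq_of_subset_of_card_le ?_ hc.le).symm
    intro z hz
    rw [Finset.mem_filter] at hz ⊢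
    exact ⟨hz.1, hz.2.trans_le h⟩

theorem initial_eq' [LinearOrder M] (P : Finset M) (x y : M)
    (hc : (P.filter (fun z => z < x)).card = (P.filter (fun z => z < y)).card)
    (hm : x ∈ P ↔ y ∈ P) (z : M) (hz : z ∈ P) :
    (z < x ↔ z < y) ∧ (x < z ↔ y < z) := by
  have e := initial_eq P x y hc
  have h1 : ∀ z ∈ P, (z < x ↔ z < y) := by
    intro z hz
    have := Finset.ext_iff.1 e z
    rw [Finset.mem_filter, Finset.mem_filter] at this
    exact ⟨fun h => (this.1 ⟨hz, h⟩).2, fun h => (this.2 ⟨hz, h⟩).2⟩
  refine ⟨h1 z hz, ?_⟩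
  by_cases hx : x ∈ P
  · -- both in P: then x = y
    have hy := hm.1 hx
    have : x = y := by
      rcases lt_trichotomy x y with h | h | h
      · exact absurd ((h1 x hx).2 h) (lt_irrefl _)
      · exact h
      · exact absurd ((h1 y hy).1 h) (lt_irrefl _)
    rw [this]
  · have hy : y ∉ P := fun H => hx (hm.2 H)
    have hzx : z ≠ x := by rintro rfl; exact hx hz
    have hzy : z ≠ y := by rintro rfl; exact hy hz
    constructor
    · intro h
      rcases lt_trichotomy y z with h' | h' | h'
      · exact h'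
      · exact absurd h'.symm hzy
      · exact absurd ((h1 z hz).2 h') (not_lt.2 h.le)
    · intro h
      rcases lt_trichotomy x z with h' | h' | h'
      · exact h'
      · exact absurd h'.symm hzx
      · exact absurd ((h1 z hz).1 h') (not_lt.2 h.le)

open Classical in
theorem good_of_code (h : DCO R) (p : M) (P : Finset M) {m : ℕ} (a a' : Fin m → M)
    (hc : code R p P a = code R p P a') :
    Good R (Set.range (fun i => (a i, a' i)) ∪ (fun x => (x, x)) '' (P : Set M)) := by
  have h1 : ∀ i, ∀ z ∈ P, (DCO.plt R p z (a i) ↔ DCO.plt R p z (a' i)) ∧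
      (DCO.plt R p (a i) z ↔ DCO.plt R p (a' i) z) := by
    intro i z hz
    have e1 := congrFun (congrArg Prod.fst hc) i
    have e2 := congrArg Prod.fst e1
    have e3 := congrArg Prod.snd e1
    have e2' := congrArg Fin.val e2
    have e3' : (a i ∈ P) ↔ (a' i ∈ P) := by
      have := e3
      simp only [code, decide_eq_decide] at this
      exact this
    refine @initial_eq' M (h.lin p) P (a i) (a' i) ?_ e3' z hz
    simp only [code] at e2'
    convert e2' using 2 <;>
    · ext x
      rw [Finset.mem_filter, Finset.mem_filter]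
      exact Iff.rfl
  have h2 : ∀ i j, (DCO.plt R p (a i) (a j) ↔ DCO.plt R p (a' i) (a' j)) := by
    intro i j
    have e1 := congrFun (congrFun (congrArg Prod.snd hc) i) j
    simp only [code, decide_eq_decide] at e1
    exact e1
  refine h.good_of_lt p p _ ?_
  rintro s (⟨i, rfl⟩ | ⟨x, hx, rfl⟩) t (⟨j, rfl⟩ | ⟨y, hy, rfl⟩)
  · exact h2 i j
  · exact (h1 i y hy).2
  · exact (h1 j x hx).1
  · exact Iff.rfl

end code

variable {M : Type*} [LCyc.Structure M]

theorem inst_iff_of_code (h : DCO (relOf M)) (p : M) (P : Finset M) {m q : ℕ}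
    (φ : LCyc.Formula (Fin m ⊕ Fin q)) (a a' : Fin m → M)
    (hc : code (relOf M) p P a = code (relOf M) p P a') (b : Fin q → M) (hb : ∀ i, b i ∈ P) :
    a ∈ inst M φ b ↔ a' ∈ inst M φ b := by
  refine formula_iff h φ _ ?_ (good_of_code h p P a a' hc) _ _ ?_
  · exact (Set.finite_range _).union (P.finite_toSet.image _)
  · intro i
    cases i with
    | inl i => exact Or.inl ⟨i, rfl⟩
    | inr i => exact Or.inr ⟨b i, hb i, rfl⟩

open Classical in
/-- the set of coordinates -/
noncomputable def coords {q : ℕ} (B : Finset (Fin q → M)) : Finset M :=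
  B.biUnion (fun b => Finset.univ.image b)

omit [LCyc.Structure M] in
theorem coords_card {q : ℕ} (B : Finset (Fin q → M)) : (coords B).card ≤ B.card * q := by
  classical
  unfold coords
  refine Finset.card_biUnion_le_card_mul _ _ _ ?_
  intro b _
  refine Finset.card_image_le.trans ?_
  simp

theorem types_bound (h : DCO (relOf M)) (p : M) {m q : ℕ}
    (φ : LCyc.Formula (Fin m ⊕ Fin q)) (B : Finset (Fin q → M)) :
    (phiTypes M φ B).ncard ≤ ((B.card * q + 1) * 2) ^ m * (2 ^ m) ^ m := by
  classical
  set P := coords B with hP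
  let Code := (Fin m → Fin (P.card + 1) × Bool) × (Fin m → Fin m → Bool)
  let G : Code → (B → Prop) := fun c =>
    if H : ∃ a : Fin m → M, code (relOf M) p P a = c then
      fun b => H.choose ∈ inst M φ b.1 else fun _ => True
  have hsub : phiTypes M φ B ⊆ G '' Set.univ := by
    rintro _ ⟨a, rfl⟩
    refine ⟨code (relOf M) p P a, trivial, ?_⟩
    have H : ∃ a' : Fin m → M, code (relOf M) p P a' = code (relOf M) p P a := ⟨a, rfl⟩
    simp only [G, dif_pos H]
    funext b
    refine propext (inst_iff_of_code h p P φ _ _ H.choose_spec b.1 ?_)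
    intro i
    rw [hP, coords, Finset.mem_biUnion]
    exact ⟨b.1, b.2, Finset.mem_image_of_mem _ (Finset.mem_univ _)⟩
  have hcard : Fintype.card Code = ((P.card + 1) * 2) ^ m * (2 ^ m) ^ m := by
    simp [Code, Fintype.card_prod, Fintype.card_pi]
  calc (phiTypes M φ B).ncard ≤ (G '' Set.univ).ncard :=
        Set.ncard_le_ncard hsub (Set.finite_univ.image _)
    _ ≤ (Set.univ : Set Code).ncard := Set.ncard_image_le Set.finite_univ
    _ = Fintype.card Code := by rw [Set.ncard_univ, Nat.card_eq_fintype_card]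
    _ = ((P.card + 1) * 2) ^ m * (2 ^ m) ^ m := hcard
    _ ≤ _ := by
        gcongr
        exact coords_card B

theorem piStar_bound (h : DCO (relOf M)) (p : M) {m q : ℕ}
    (φ : LCyc.Formula (Fin m ⊕ Fin q)) (n : ℕ) :
    piStar M φ n ≤ ((n * q + 1) * 2) ^ m * (2 ^ m) ^ m := by
  unfold piStar
  rcases Set.eq_empty_or_nonempty
    {k : ℕ | ∃ B : Finset (Fin q → M), B.card = n ∧ k = (phiTypes M φ B).ncard} with he | hne
  · rw [he]; simp
  · refine csSup_le hne ?_
    rintro k ⟨B, hB, rfl⟩
    rw [← hB]
    exact types_bound h p φ B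

theorem lowVC (h : DCO (relOf M)) (p : M) : LowVCDensity LCyc M := by
  intro m q φ
  unfold vcDensity
  refine (iInf₂_le (m : NNReal) ?_).trans (by simp)
  refine Asymptotics.IsBigO.of_bound (((q + 1) * 2) ^ m * (2 ^ m) ^ m : ℕ) ?_
  filter_upwards [Filter.eventually_ge_atTop 1] with n hn
  have h1 := piStar_bound h p φ n
  have h2 : ((n * q + 1) * 2) ^ m * (2 ^ m) ^ m ≤ ((q + 1) * 2) ^ m * (2 ^ m) ^ m * n ^ m := by
    have : (n * q + 1) * 2 ≤ ((q + 1) * 2) * n := by nlinarith
    calc ((n * q + 1) * 2) ^ m * (2 ^ m) ^ m ≤ (((q + 1) * 2) * n) ^ m * (2 ^ m) ^ m := by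
          gcongr
      _ = _ := by rw [mul_pow]; ring
  have h3 : (piStar M φ n : ℝ) ≤ ((((q + 1) * 2) ^ m * (2 ^ m) ^ m * n ^ m : ℕ) : ℝ) := by
    exact_mod_cast h1.trans h2
  have e : ((n : ℝ) ^ (((m : NNReal) : ℝ))) = (n : ℝ) ^ m := by
    rw [NNReal.coe_natCast, Real.rpow_natCast]
  rw [e, Real.norm_of_nonneg (Nat.cast_nonneg _), Real.norm_of_nonneg (by positivity)]
  refine h3.trans (le_of_eq ?_)
  push_cast
  ring

theorem dpMin (h : DCO (relOf M)) (p : M) : DpMinimal LCyc M := by
  classical
  rintro ⟨q, r, φ, ψ, b, c, H⟩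
  set N : ℕ := 4 * (q + r) + 5 with hN
  let B : Finset (Fin q → M) := (Finset.range N).image b
  let C : Finset (Fin r → M) := (Finset.range N).image c
  set P : Finset M := coords B ∪ coords C with hP
  have hPc : P.card ≤ N * (q + r) := by
    have h1 : (coords B).card ≤ N * q := (coords_card B).trans (by
      gcongr
      exact Finset.card_image_le.trans (by simp))
    have h2 : (coords C).card ≤ N * r := (coords_card C).trans (by
      gcongr
      exact Finset.card_image_le.trans (by simp))
    calc P.card ≤ (coords B).card + (coords C).card := Finset.card_union_le _ _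
      _ ≤ N * q + N * r := by omega
      _ = N * (q + r) := by ring
  choose a ha using fun (i j : ℕ) => H i j (Finset.range N) (Finset.range N)
  let F : Fin N × Fin N → (Fin 1 → Fin (P.card + 1) × Bool) × (Fin 1 → Fin 1 → Bool) :=
    fun x => code (relOf M) p P (a x.1 x.2)
  have hbP : ∀ i < N, ∀ l, b i l ∈ P := by
    intro i hi l
    rw [hP, Finset.mem_union]
    left
    rw [coords, Finset.mem_biUnion]
    exact ⟨b i, Finset.mem_image_of_mem _ (Finset.mem_range.2 hi),
      Finset.mem_image_of_mem _ (Finset.mem_univ _)⟩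
  have hcP : ∀ i < N, ∀ l, c i l ∈ P := by
    intro i hi l
    rw [hP, Finset.mem_union]
    right
    rw [coords, Finset.mem_biUnion]
    exact ⟨c i, Finset.mem_image_of_mem _ (Finset.mem_range.2 hi),
      Finset.mem_image_of_mem _ (Finset.mem_univ _)⟩
  have hinj : Function.Injective F := by
    rintro ⟨i, j⟩ ⟨i', j'⟩ hF
    have e1 : i = i' := by
      by_contra hne
      have h1 := (inst_iff_of_code h p P φ _ _ hF (b i) (hbP i i.2)).1 (ha i j).1
      exact (ha i' j').2.2.1 i (Finset.mem_range.2 i.2) (fun H => hne (Fin.ext H)) h1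
    have e2 : j = j' := by
      by_contra hne
      have h1 := (inst_iff_of_code h p P ψ _ _ hF (c j) (hcP j j.2)).1 (ha i j).2.1
      exact (ha i' j').2.2.2 j (Finset.mem_range.2 j.2) (fun H => hne (Fin.ext H)) h1
    rw [e1, e2]
  have hcard := Fintype.card_le_of_injective F hinj
  have e : Fintype.card ((Fin 1 → Fin (P.card + 1) × Bool) × (Fin 1 → Fin 1 → Bool)) =
      (P.card + 1) * 2 * 2 := by
    simp [Fintype.card_prod, Fintype.card_pi]
  rw [e, Fintype.card_prod, Fintype.card_fin] at hcard
  have : N * N ≤ (N * (q + r) + 1) * 2 * 2 := by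
    refine hcard.trans ?_
    gcongr
  nlinarith

end Pool.Agent.R611
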