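import Pool.Agent.R611.Cyc3

/-!
# Formulas of independence dimension one in dense cyclic orders
-/

namespace Pool.Agent.R611

open FirstOrder Language

theorem boundary {M : Type*} [LinearOrder M] [DenselyOrdered M] (C : Finset M) (A : Set M)
    (hom : ∀ u v, u ∉ C → v ∉ C → (∀ c ∈ C, (c < u ↔ c < v)) → (u ∈ A ↔ v ∈ A))
    (hbot : ∀ y, y ∉ C → (∀ c ∈ C, ¬ c < y) → y ∈ A) :
    ∀ (n : ℕ) (y : M), (C.filter (fun c => c < y)).card = n → y ∉ C → y ∉ A →
      ∃ p ∈ C, p < y ∧ (∀ u, u < p → ∃ z, u < z ∧ z < p ∧ z ∈ A) ∧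
        (∀ v, p < v → ∃ z, p < z ∧ z < v ∧ z ∉ A) := by
  intro n
  induction n using Nat.strong_induction_on with
  | _ n ih =>
  intro y hn hyC hyA
  have hne : (C.filter (fun c => c < y)).Nonempty := by
    by_contra hne
    rw [Finset.not_nonempty_iff_eq_empty] at hne
    refine hyA (hbot y hyC ?_)
    intro c hc hcy
    have : c ∈ C.filter (fun c => c < y) := Finset.mem_filter.2 ⟨hc, hcy⟩
    rw [hne] at this
    exact Finset.notMem_empty _ this
  set lo := (C.filter (fun c => c < y)).max' hne with hlo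
  have hlomem : lo ∈ C.filter (fun c => c < y) := Finset.max'_mem _ _
  have hloC : lo ∈ C := (Finset.mem_filter.1 hlomem).1
  have hloy : lo < y := (Finset.mem_filter.1 hlomem).2
  have hmax : ∀ c ∈ C, c < y → c ≤ lo := fun c hc hcy =>
    Finset.le_max' _ _ (Finset.mem_filter.2 ⟨hc, hcy⟩)
  have hright : ∀ v, lo < v → ∃ z, lo < z ∧ z < v ∧ z ∉ A := by
    intro v hv
    obtain ⟨z, hz1, hz2⟩ := exists_between (lt_min hv hloy)
    have hzy : z < y := hz2.trans_le (min_le_right _ _)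
    refine ⟨z, hz1, hz2.trans_le (min_le_left _ _), ?_⟩
    have hzC : z ∉ C := fun hzC => absurd (hmax z hzC hzy) (not_le.2 hz1)
    intro hzA
    refine hyA ((hom z y hzC hyC ?_).1 hzA)
    intro c hc
    exact ⟨fun H => H.trans hzy, fun H => (hmax c hc H).trans_lt hz1⟩
  by_cases hleft : ∀ u, u < lo → ∃ z, u < z ∧ z < lo ∧ z ∈ A
  · exact ⟨lo, hloC, hloy, hleft, hright⟩
  push Not at hleft
  obtain ⟨u, hu, huA⟩ := hleft
  obtain ⟨y', hy', hy'C⟩ := (Set.Ioo_infinite hu).exists_notMem_finset C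
  have hlt : (C.filter (fun c => c < y')).card < n := by
    rw [← hn]
    refine Finset.card_lt_card ⟨?_, ?_⟩
    · intro c hc
      rw [Finset.mem_filter] at hc ⊢
      exact ⟨hc.1, hc.2.trans (hy'.2.trans hloy)⟩
    · intro H
      have := H hlomem
      rw [Finset.mem_filter] at this
      exact absurd this.2 (not_lt.2 hy'.2.le)
  obtain ⟨p, hpC, hpy, h1, h2⟩ := ih _ hlt y' rfl hy'C (huA y' hy'.1 hy'.2)
  exact ⟨p, hpC, hpy.trans (hy'.2.trans hloy), h1, h2⟩

theorem exists_below {M : Type*} [LinearOrder M] (F : Finset M) {x y : M} (h : y < x) :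
    ∃ u, u < x ∧ ∀ c ∈ F, c < x → c ≤ u := by
  classical
  have hne : (insert y (F.filter (fun c => c < x))).Nonempty := ⟨y, Finset.mem_insert_self _ _⟩
  refine ⟨(insert y (F.filter (fun c => c < x))).max' hne, ?_, ?_⟩
  · have := Finset.max'_mem _ hne
    rcases Finset.mem_insert.1 this with H | H
    · rw [H]; exact h
    · exact (Finset.mem_filter.1 H).2
  · intro c hc hcx
    exact Finset.le_max' _ _ (Finset.mem_insert_of_mem (Finset.mem_filter.2 ⟨hc, hcx⟩))

theorem exists_above {M : Type*} [LinearOrder M] (F : Finset M) {x y : M} (h : x < y) :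
    ∃ u, x < u ∧ ∀ c ∈ F, x < c → u ≤ c := by
  obtain ⟨u, h1, h2⟩ := @exists_below Mᵒᵈ _ F x y h
  exact ⟨u, h1, h2⟩

section

variable {M : Type*} {R : M → M → M → Prop}

theorem good_pair (h : DCO R) {a a' b b' : M} (h1 : a ≠ a') (h2 : b ≠ b') :
    Good R {(a, b), (a', b')} := by
  constructor
  · rintro s (rfl | rfl) t (rfl | rfl)
    · exact ⟨fun _ => rfl, fun _ => rfl⟩
    · exact ⟨fun H => absurd H h1, fun H => absurd H h2⟩
    · exact ⟨fun H => absurd H.symm h1, fun H => absurd H.symm h2⟩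
    · exact ⟨fun _ => rfl, fun _ => rfl⟩
  · rintro s (rfl | rfl) t (rfl | rfl) u (rfl | rfl)
    · exact ⟨fun H => absurd H (h.irr1 _ _), fun H => absurd H (h.irr1 _ _)⟩
    · exact ⟨fun H => absurd H (h.irr2 _ _), fun H => absurd H (h.irr2 _ _)⟩
    · exact ⟨fun H => absurd H (h.irr3 _ _), fun H => absurd H (h.irr3 _ _)⟩
    · exact ⟨fun H => absurd H (h.irr1 _ _), fun H => absurd H (h.irr1 _ _)⟩
    · exact ⟨fun H => absurd H (h.irr1 _ _), fun H => absurd H (h.irr1 _ _)⟩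
    · exact ⟨fun H => absurd H (h.irr3 _ _), fun H => absurd H (h.irr3 _ _)⟩
    · exact ⟨fun H => absurd H (h.irr2 _ _), fun H => absurd H (h.irr2 _ _)⟩
    · exact ⟨fun H => absurd H (h.irr1 _ _), fun H => absurd H (h.irr1 _ _)⟩

/-- moving one point within an open gap of `C` -/
theorem good_move (h : DCO R) (p : M) (C : Set M) {u v : M}
    (hc : ∀ c ∈ C, (DCO.plt R p c u ↔ DCO.plt R p c v) ∧ (DCO.plt R p u c ↔ DCO.plt R p v c)) :
    Good R (insert (u, v) ((fun x => (x, x)) '' C)) := by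
  refine h.good_of_lt p p _ ?_
  rintro s (rfl | ⟨x, hx, rfl⟩) t (rfl | ⟨y, hy, rfl⟩)
  · exact ⟨fun H => absurd H (h.plt_irrefl _ _), fun H => absurd H (h.plt_irrefl _ _)⟩
  · exact (hc y hy).2
  · exact (hc x hx).1
  · exact Iff.rfl

/-- a point above all of `C` is equivalent over `C` to the pivot -/
theorem good_top (h : DCO R) (p : M) (C : Set M) {u : M} (hpC : p ∉ C)
    (hc : ∀ c ∈ C, DCO.plt R p c u) :
    Good R (insert (u, p) ((fun x => (x, x)) '' C)) := by
  have huC : u ∉ C := fun H => h.plt_irrefl _ _ (hc u H)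
  refine h.good_of_lt u p _ ?_
  rintro s (rfl | ⟨x, hx, rfl⟩) t (rfl | ⟨y, hy, rfl⟩)
  · exact ⟨fun H => absurd H (h.plt_irrefl _ _), fun H => absurd H (h.plt_irrefl _ _)⟩
  · exact ⟨fun _ => Or.inr ⟨rfl, fun H => hpC (H ▸ hy)⟩, fun _ => Or.inr ⟨rfl, fun H => huC (H ▸ hy)⟩⟩
  · constructor
    · rintro (H | ⟨H, H'⟩)
      · exact absurd H (h.irr3 _ _)
      · exact absurd rfl H'
    · rintro (H | ⟨H, H'⟩)
      · exact absurd H (h.irr3 _ _)
      · exact absurd rfl H'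
  · have hx' := hc x hx
    have hy' := hc y hy
    have e1 : x ≠ u := fun H => huC (H ▸ hx)
    have key : R u x y ↔ DCO.plt R p x y := by
      rw [h.rel_iff_lin p]
      constructor
      · rintro (⟨H1, H2⟩ | ⟨H1, H2⟩ | ⟨H1, H2⟩)
        · exact absurd (h.plt_trans p H1 hx') (h.plt_irrefl _ _)
        · exact H1
        · exact absurd (h.plt_trans p H2 hx') (h.plt_irrefl _ _)
      · intro H
        exact Or.inr (Or.inl ⟨H, hy'⟩)
    change DCO.plt R u x y ↔ DCO.plt R p x y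
    rw [← key]
    constructor
    · rintro (H | ⟨H, _⟩)
      · exact H
      · exact absurd H e1
    · exact Or.inl

end

variable {M : Type*} [LCyc.Structure M]

theorem mem_inst_iff (h : DCO (relOf M)) {q : ℕ} (ψ : LCyc.Formula (Fin 1 ⊕ Fin q))
    (S : Set (M × M)) (hf : S.Finite) (hS : Good (relOf M) S) {x x' : M} {c c' : Fin q → M}
    (hx : (x, x') ∈ S) (hc : ∀ i, (c i, c' i) ∈ S) :
    (fun _ => x) ∈ inst M ψ c ↔ (fun _ => x') ∈ inst M ψ c' := by
  refine formula_iff h ψ S hf hS _ _ ?_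
  intro i
  cases i with
  | inl i => exact hx
  | inr i => exact hc i

theorem fin_or_cofin (h : DCO (relOf M)) {q : ℕ} (ψ : LCyc.Formula (Fin 1 ⊕ Fin q))
    (hdim : IndepDimLE M ψ 1) (c : Fin q → M) :
    {x : M | (fun _ => x) ∈ inst M ψ c}.Finite ∨ {x : M | (fun _ => x) ∈ inst M ψ c}ᶜ.Finite := by
  classical
  by_contra hcon
  push Not at hcon
  set A : Set M := {x : M | (fun _ => x) ∈ inst M ψ c} with hA
  obtain ⟨hAi, hAci⟩ := hcon
  let C : Finset M := Finset.univ.image c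
  have hcC : ∀ i, c i ∈ C := fun i => Finset.mem_image_of_mem _ (Finset.mem_univ _)
  have hCc : ∀ x ∈ C, ∃ i, c i = x := by
    intro x hx
    obtain ⟨i, _, hi⟩ := Finset.mem_image.1 hx
    exact ⟨i, hi⟩
  obtain ⟨a, haA, haC⟩ := hAi.exists_notMem_finset C
  obtain ⟨a', ha'A, ha'C⟩ := hAci.exists_notMem_finset C
  let _ : LinearOrder M := h.lin a
  have _ : DenselyOrdered M := h.lin_dense a
  have _ : NoMaxOrder M := h.lin_noMax a
  have hbot : ∀ x : M, a ≤ x := fun x => h.lin_bot a x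
  have fliplt : ∀ (D : Finset M) (u v : M), u ∉ D → v ∉ D → (∀ c ∈ D, (c < u ↔ c < v)) →
      ∀ c ∈ D, (u < c ↔ v < c) := by
    intro D u v hu hv H c hc
    have h1 : u < c ↔ ¬ c < u := by
      constructor
      · exact fun H => not_lt.2 H.le
      · intro H
        exact lt_of_le_of_ne (not_lt.1 H) (fun e => hu (e ▸ hc))
    have h2 : v < c ↔ ¬ c < v := by
      constructor
      · exact fun H => not_lt.2 H.le
      · intro H
        exact lt_of_le_of_ne (not_lt.1 H) (fun e => hv (e ▸ hc))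
    rw [h1, h2, H c hc]
  have fliplt' : ∀ (D : Finset M) (u v : M), u ∉ D → v ∉ D → (∀ c ∈ D, (u < c ↔ v < c)) →
      ∀ c ∈ D, (c < u ↔ c < v) := by
    intro D u v hu hv H x hx
    have hx' := H x hx
    have h1 : x < u ↔ ¬ u < x := by
      constructor
      · exact fun H => not_lt.2 H.le
      · intro H
        exact lt_of_le_of_ne (not_lt.1 H) (fun e => hu (e ▸ hx))
    have h2 : x < v ↔ ¬ v < x := by
      constructor
      · exact fun H => not_lt.2 H.le
      · intro H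
        exact lt_of_le_of_ne (not_lt.1 H) (fun e => hv (e ▸ hx))
    rw [h1, h2]
    exact not_congr hx'
  -- homogeneity for any parameter tuple
  have hom : ∀ (d : Fin q → M) (D : Finset M) (_ : ∀ i, d i ∈ D) (u v : M), u ∉ D → v ∉ D →
      (∀ c ∈ D, (c < u ↔ c < v)) →
      ((fun _ => u) ∈ inst M ψ d ↔ (fun _ => v) ∈ inst M ψ d) := by
    intro d D hd u v hu hv H
    refine mem_inst_iff h ψ (insert (u, v) ((fun x => (x, x)) '' (D : Set M)))
      ((D.finite_toSet.image _).insert _) ?_ (Set.mem_insert _ _)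
      (fun i => Set.mem_insert_of_mem _ ⟨d i, hd i, rfl⟩)
    refine good_move h a _ ?_
    intro x hx
    exact ⟨H x hx, fliplt D u v hu hv H x hx⟩
  have homA : ∀ u v, u ∉ C → v ∉ C → (∀ c ∈ C, (c < u ↔ c < v)) → (u ∈ A ↔ v ∈ A) :=
    fun u v hu hv H => hom c C hcC u v hu hv H
  have hAbot : ∀ y, y ∉ C → (∀ c ∈ C, ¬ c < y) → y ∈ A := by
    intro y hy H
    refine (homA y a hy haC ?_).2 haA
    intro x hx
    exact ⟨fun H' => absurd H' (H x hx), fun H' => absurd (hbot x) (not_le.2 H')⟩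
  obtain ⟨p₁, hp₁C, hp₁a, hp₁l, hp₁r⟩ := boundary C A homA hAbot _ a' rfl ha'C ha'A
  obtain ⟨p₂, hp₂C, hp₂a, hp₂r, hp₂l⟩ := @boundary Mᵒᵈ _ _ C A
    (fun u v hu hv H => homA u v hu hv (fliplt' C u v hu hv H))
    (by
      intro y hy H
      have hall : ∀ x ∈ C, x < y := by
        intro x hx
        have := H x hx
        exact lt_of_le_of_ne (not_lt.1 this) (fun e => hy (e ▸ hx))
      refine (mem_inst_iff h ψ (insert (y, a) ((fun x => (x, x)) '' (C : Set M)))
        ((C.finite_toSet.image _).insert _) ?_ (Set.mem_insert _ _)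
        (fun i => Set.mem_insert_of_mem _ ⟨c i, hcC i, rfl⟩)).2 haA
      exact good_top h a _ haC hall) _ a' rfl ha'C ha'A
  -- now `p₁ < a' < p₂`
  have hp₁₂ : p₁ ≠ p₂ := by
    intro e
    have : a' < p₁ := by rw [e]; exact hp₂a
    exact absurd (this.trans hp₁a) (lt_irrefl _)
  have haa' : a ≠ a' := by
    intro e
    rw [e] at haA
    exact ha'A haA
  obtain ⟨T, hST, hTf, hTg, hT⟩ := h.extend_finset _ (Set.toFinite _)
    (good_pair h haa' hp₁₂) C
  choose c' hc' using fun i => hT (c i) (hcC i)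
  let C' : Finset M := Finset.univ.image c'
  have hc'C' : ∀ i, c' i ∈ C' := fun i => Finset.mem_image_of_mem _ (Finset.mem_univ _)
  have m1 : (a, p₁) ∈ T := hST (Set.mem_insert _ _)
  have m2 : (a', p₂) ∈ T := hST (Set.mem_insert_of_mem _ rfl)
  have hp₁C' : p₁ ∉ C' := by
    intro H
    obtain ⟨i, _, hi⟩ := Finset.mem_image.1 H
    have e : a = c i := (hTg.1 _ m1 _ (hc' i)).2 hi.symm
    exact haC (by rw [e]; exact hcC i)
  have hp₂C' : p₂ ∉ C' := by
    intro H
    obtain ⟨i, _, hi⟩ := Finset.mem_image.1 H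
    have e : a' = c i := (hTg.1 _ m2 _ (hc' i)).2 hi.symm
    exact ha'C (by rw [e]; exact hcC i)
  set A' : Set M := {x : M | (fun _ => x) ∈ inst M ψ c'} with hA'
  have hp₁A' : p₁ ∈ A' := (mem_inst_iff h ψ T hTf hTg m1 hc').1 haA
  have hp₂A' : p₂ ∉ A' := fun H => ha'A ((mem_inst_iff h ψ T hTf hTg m2 hc').2 H)
  have nearl : ∀ p, p ∉ C' → a < p → ∃ u, u < p ∧ ∀ z, u < z → z < p → (z ∈ A' ↔ p ∈ A') := by
    intro p hp hap
    obtain ⟨u, hu, hu'⟩ := exists_below C' hap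
    refine ⟨u, hu, fun z hz1 hz2 => ?_⟩
    have hzC' : z ∉ C' := fun H => absurd (hu' z H hz2) (not_le.2 hz1)
    refine hom c' C' hc'C' z p hzC' hp ?_
    intro x hx
    exact ⟨fun H => H.trans hz2, fun H => (hu' x hx H).trans_lt hz1⟩
  have nearr : ∀ p, p ∉ C' → ∃ v, p < v ∧ ∀ z, p < z → z < v → (z ∈ A' ↔ p ∈ A') := by
    intro p hp
    obtain ⟨y, hy⟩ := exists_gt p
    obtain ⟨v, hv, hv'⟩ := exists_above C' hy
    refine ⟨v, hv, fun z hz1 hz2 => ?_⟩
    have hzC' : z ∉ C' := fun H => absurd (hv' z H hz1) (not_le.2 hz2)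
    refine hom c' C' hc'C' z p hzC' hp ?_
    intro x hx
    constructor
    · intro H
      rcases lt_trichotomy x p with H' | H' | H'
      · exact H'
      · exact absurd (H' ▸ hx) hp
      · exact absurd (hv' x hx H') (not_le.2 (H.trans hz2))
    · intro H
      exact H.trans hz1
  have hap₁ : a < p₁ := lt_of_le_of_ne (hbot _) (fun e => haC (e ▸ hp₁C))
  have hap₂ : a < p₂ := lt_of_le_of_ne (hbot _) (fun e => haC (e ▸ hp₂C))
  obtain ⟨u₁, hu₁, hu₁'⟩ := nearl p₁ hp₁C' hap₁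
  obtain ⟨v₁, hv₁, hv₁'⟩ := nearr p₁ hp₁C'
  obtain ⟨u₂, hu₂, hu₂'⟩ := nearl p₂ hp₂C' hap₂
  obtain ⟨v₂, hv₂, hv₂'⟩ := nearr p₂ hp₂C'
  obtain ⟨w1, hw1a, hw1b, hw1A⟩ := hp₁l u₁ hu₁
  obtain ⟨w2, hw2a, hw2b, hw2A⟩ := hp₁r v₁ hv₁
  obtain ⟨w3, hw3a, hw3b, hw3A⟩ := hp₂r v₂ hv₂
  obtain ⟨w4, hw4a, hw4b, hw4A⟩ := hp₂l u₂ hu₂
  have k1 : w1 ∈ A' := (hu₁' w1 hw1a hw1b).2 hp₁A'
  have k2 : w2 ∈ A' := (hv₁' w2 hw2a hw2b).2 hp₁A'
  have k3 : w3 ∉ A' := fun H => hp₂A' ((hv₂' w3 hw3b hw3a).1 H)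
  have k4 : w4 ∉ A' := fun H => hp₂A' ((hu₂' w4 hw4b hw4a).1 H)
  have hne : inst M ψ c ≠ inst M ψ c' := by
    intro e
    refine hw2A ?_
    change (fun _ => w2) ∈ inst M ψ c
    rw [e]
    exact k2
  have hind : IndependentFamily ({inst M ψ c, inst M ψ c'} : Set (Set (Fin 1 → M))) := by
    intro s
    by_cases s1 : s (inst M ψ c) <;> by_cases s2 : s (inst M ψ c')
    · refine ⟨fun _ => w1, ?_⟩
      rintro B (rfl | rfl)
      · exact ⟨fun _ => s1, fun _ => hw1A⟩
      · exact ⟨fun _ => s2, fun _ => k1⟩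
    · refine ⟨fun _ => w3, ?_⟩
      rintro B (rfl | rfl)
      · exact ⟨fun _ => s1, fun _ => hw3A⟩
      · exact ⟨fun H => absurd H k3, fun H => absurd H s2⟩
    · refine ⟨fun _ => w2, ?_⟩
      rintro B (rfl | rfl)
      · exact ⟨fun H => absurd H hw2A, fun H => absurd H s1⟩
      · exact ⟨fun _ => s2, fun _ => k2⟩
    · refine ⟨fun _ => w4, ?_⟩
      rintro B (rfl | rfl)
      · exact ⟨fun H => absurd H hw4A, fun H => absurd H s1⟩
      · exact ⟨fun H => absurd H k4, fun H => absurd H s2⟩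
  have := hdim _ (by
    rintro B (rfl | rfl)
    · exact ⟨c, rfl⟩
    · exact ⟨c', rfl⟩) hind
  rw [Set.encard_pair hne] at this
  norm_num at this

/-- The formula `R(y,x,z)`. -/
def arcFormula : LCyc.Formula (Fin 1 ⊕ Fin 2) :=
  btwSym.formula ![Term.var (Sum.inr 0), Term.var (Sum.inl 0), Term.var (Sum.inr 1)]

theorem mem_arc {M : Type*} [LCyc.Structure M] (b : Fin 2 → M) (x : M) :
    (fun _ => x) ∈ inst M arcFormula b ↔ relOf M (b 0) x (b 1) := by
  change (btwSym.formula _).Realize _ ↔ _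
  rw [Formula.realize_rel]
  unfold relOf
  apply iff_of_eq
  congr 1
  funext i
  fin_cases i <;> simp

theorem not_weak (h : DCO (relOf M)) : ¬ WeaklyVCMinimal LCyc M := by
  classical
  intro H
  obtain ⟨a, b, hab⟩ := h.nontriv
  obtain ⟨k, r, ψ, c, F, hdim, hF⟩ := H 2 arcFormula ![a, b]
  have hfc : ∀ i, ∃ E : Finset M, ∀ x y, x ∉ E → y ∉ E →
      (((fun _ => x) ∈ inst M (ψ i) (c i)) ↔ ((fun _ => y) ∈ inst M (ψ i) (c i))) := by
    intro i
    rcases fin_or_cofin h (ψ i) (hdim i) (c i) with hf | hf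
    · refine ⟨hf.toFinset, fun x y hx hy => ?_⟩
      rw [Set.Finite.mem_toFinset] at hx hy
      exact ⟨fun H => absurd H hx, fun H => absurd H hy⟩
    · refine ⟨hf.toFinset, fun x y hx hy => ?_⟩
      rw [Set.Finite.mem_toFinset] at hx hy
      have hx' := Set.notMem_compl_iff.1 hx
      have hy' := Set.notMem_compl_iff.1 hy
      exact ⟨fun _ => hy', fun _ => hx'⟩
  choose E hE using hfc
  let E' : Finset M := Finset.univ.biUnion E
  have hE' : ∀ x, x ∉ E' → ∀ i, x ∉ E i := by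
    intro x hx i hi
    exact hx (Finset.mem_biUnion.2 ⟨i, Finset.mem_univ _, hi⟩)
  have key : ∀ x y, x ∉ E' → y ∉ E' → (relOf M a x b ↔ relOf M a y b) := by
    intro x y hx hy
    have h1 := hF (fun _ => x)
    have h2 := hF (fun _ => y)
    rw [mem_arc] at h1 h2
    have e : (fun i => (fun _ => x) ∈ inst M (ψ i) (c i)) =
        (fun i => (fun _ => y) ∈ inst M (ψ i) (c i)) := by
      funext i
      exact propext (hE i x y (hE' x hx i) (hE' y hy i))
    rw [e] at h1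
    exact h1.trans h2.symm
  let _ : LinearOrder M := h.lin a
  have _ : DenselyOrdered M := h.lin_dense a
  have _ : NoMaxOrder M := h.lin_noMax a
  have hab' : a < b := Or.inr ⟨rfl, hab.symm⟩
  obtain ⟨x, hx, hxE⟩ := (Set.Ioo_infinite hab').exists_notMem_finset E'
  obtain ⟨y, hy, hyE⟩ := (Set.Ioi_infinite b).exists_notMem_finset E'
  have h1 : relOf M a x b := (h.rel_iff_lin a _ _ _).2 (Or.inl ⟨hx.1, hx.2⟩)
  have h2 : ¬ relOf M a y b := by
    intro H
    rcases (h.rel_iff_lin a _ _ _).1 H with ⟨_, H2⟩ | ⟨H1, _⟩ | ⟨H1, H2⟩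
    · exact absurd (lt_trans (a := y) H2 hy) (lt_irrefl _)
    · exact absurd (lt_trans (a := y) H1 hy) (lt_irrefl _)
    · exact absurd (lt_trans (a := b) H1 hab') (lt_irrefl _)
  exact h2 ((key x y hxE hyE).1 h1)

end Pool.Agent.R611
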