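import Pool.Agent.R611.Cyc4

/-!
# The complete theory of the rational circle
-/

namespace Pool.Agent.R611

open FirstOrder Language

theorem dco_cycRel' {M : Type*} [LinearOrder M] [DenselyOrdered M] [NoMaxOrder M]
    [Nontrivial M] : DCO (cycRel' (M := M)) := by
  refine ⟨?_, ?_, ?_, ?_, ?_, exists_pair_ne M⟩
  · intro a b c H
    unfold cycRel' at *
    tauto
  · intro a b c H H'
    rcases H with ⟨h1, h2⟩ | ⟨h1, h2⟩ | ⟨h1, h2⟩ <;>
    rcases H' with ⟨h3, h4⟩ | ⟨h3, h4⟩ | ⟨h3, h4⟩ <;> order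
  · intro a b c d H H'
    unfold cycRel'
    rcases H with ⟨h1, h2⟩ | ⟨h1, h2⟩ | ⟨h1, h2⟩ <;>
    rcases H' with ⟨h3, h4⟩ | ⟨h3, h4⟩ | ⟨h3, h4⟩ <;>
    first
      | (refine Or.inl ⟨?_, ?_⟩ <;> order)
      | (refine Or.inr (Or.inl ⟨?_, ?_⟩) <;> order)
      | (refine Or.inr (Or.inr ⟨?_, ?_⟩) <;> order)
      | (exfalso; order)
  · intro a b c hab hbc hac
    unfold cycRel'
    rcases lt_or_gt_of_ne hab with h1 | h1 <;> rcases lt_or_gt_of_ne hbc with h2 | h2 <;>
      rcases lt_or_gt_of_ne hac with h3 | h3 <;> tauto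
  · intro a b hab
    rcases lt_or_gt_of_ne hab with h | h
    · obtain ⟨c, h1, h2⟩ := exists_between h
      exact ⟨c, Or.inl ⟨h1, h2⟩⟩
    · obtain ⟨c, hc⟩ := exists_gt a
      exact ⟨c, Or.inr (Or.inr ⟨h, hc⟩)⟩

/-- The rational circle: `ℚ` with the cyclic order of its usual linear order. -/
instance ratCyc : LCyc.Structure ℚ where
  funMap := fun f _ => f.elim
  RelMap := fun {_} r => match r with
    | .btw => fun v => cycRel' (v 0) (v 1) (v 2)

theorem dco_rat : DCO (relOf ℚ) := dco_cycRel' (M := ℚ)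

section ax

variable {M : Type*} [LCyc.Structure M]

theorem realize_btw {n : ℕ} (i j k : Fin n) (v : Empty → M) (xs : Fin n → M) :
    (btwSym.boundedFormula ![(Term.var (Sum.inr i) : LCyc.Term (Empty ⊕ Fin n)),
      Term.var (Sum.inr j), Term.var (Sum.inr k)]).Realize v xs ↔
      relOf M (xs i) (xs j) (xs k) := by
  rw [BoundedFormula.realize_rel]
  unfold relOf
  apply iff_of_eq
  congr 1
  funext l
  fin_cases l <;> simp

/-- atomic formula -/
def bt {n : ℕ} (i j k : Fin n) : LCyc.BoundedFormula Empty n :=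
  btwSym.boundedFormula ![(Term.var (Sum.inr i) : LCyc.Term (Empty ⊕ Fin n)),
      Term.var (Sum.inr j), Term.var (Sum.inr k)]

/-- equality -/
def eqq {n : ℕ} (i j : Fin n) : LCyc.BoundedFormula Empty n :=
  (Term.var (Sum.inr i) : LCyc.Term (Empty ⊕ Fin n)) =' (Term.var (Sum.inr j))

theorem realize_eqq {n : ℕ} (i j : Fin n) (v : Empty → M) (xs : Fin n → M) :
    (eqq i j).Realize v xs ↔ xs i = xs j := by
  unfold eqq
  rw [BoundedFormula.realize_bdEqual]
  simp

theorem realize_bt {n : ℕ} (i j k : Fin n) (v : Empty → M) (xs : Fin n → M) :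
    (bt i j k).Realize v xs ↔ relOf M (xs i) (xs j) (xs k) := realize_btw i j k v xs

def ax1 : LCyc.Sentence := ∀' ∀' ∀' (bt (n := 3) 0 1 2 ⟹ bt 1 2 0)
def ax2 : LCyc.Sentence := ∀' ∀' ∀' (bt (n := 3) 0 1 2 ⟹ ∼(bt 0 2 1))
def ax3 : LCyc.Sentence := ∀' ∀' ∀' ∀' (bt (n := 4) 0 1 2 ⟹ (bt 0 2 3 ⟹ bt 0 1 3))
def ax4 : LCyc.Sentence := ∀' ∀' ∀' (∼(eqq (n := 3) 0 1) ⟹ (∼(eqq 1 2) ⟹ (∼(eqq 0 2) ⟹
  (bt 0 1 2 ⊔ bt 0 2 1))))
def ax5 : LCyc.Sentence := ∀' ∀' (∼(eqq (n := 2) 0 1) ⟹ ∃' (bt (n := 3) 0 2 1))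
def ax6 : LCyc.Sentence := ∃' ∃' (∼(eqq (n := 2) 0 1))

theorem real1 : M ⊨ ax1 ↔ ∀ a b c, relOf M a b c → relOf M b c a := by
  simp only [ax1, Sentence.Realize, Formula.Realize, BoundedFormula.realize_all,
    BoundedFormula.realize_imp, realize_bt]
  exact Iff.rfl

theorem real2 : M ⊨ ax2 ↔ ∀ a b c, relOf M a b c → ¬ relOf M a c b := by
  simp only [ax2, Sentence.Realize, Formula.Realize, BoundedFormula.realize_all,
    BoundedFormula.realize_imp, realize_bt, BoundedFormula.realize_not]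
  exact Iff.rfl

theorem real3 : M ⊨ ax3 ↔ ∀ a b c d, relOf M a b c → relOf M a c d → relOf M a b d := by
  simp only [ax3, Sentence.Realize, Formula.Realize, BoundedFormula.realize_all,
    BoundedFormula.realize_imp, realize_bt]
  exact Iff.rfl

theorem real4 : M ⊨ ax4 ↔ ∀ a b c : M, a ≠ b → b ≠ c → a ≠ c →
    relOf M a b c ∨ relOf M a c b := by
  simp only [ax4, Sentence.Realize, Formula.Realize, BoundedFormula.realize_all,
    BoundedFormula.realize_imp, realize_bt, BoundedFormula.realize_not,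
    BoundedFormula.realize_sup, realize_eqq]
  exact Iff.rfl

theorem real5 : M ⊨ ax5 ↔ ∀ a b : M, a ≠ b → ∃ c, relOf M a c b := by
  simp only [ax5, Sentence.Realize, Formula.Realize, BoundedFormula.realize_all,
    BoundedFormula.realize_imp, realize_bt, BoundedFormula.realize_not,
    BoundedFormula.realize_ex, realize_eqq]
  exact Iff.rfl

theorem real6 : M ⊨ ax6 ↔ ∃ a b : M, a ≠ b := by
  simp only [ax6, Sentence.Realize, Formula.Realize,
    BoundedFormula.realize_not,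
    BoundedFormula.realize_ex, realize_eqq]
  exact Iff.rfl

end ax

theorem dco_of_model (M : Type*) [LCyc.Structure M] [M ⊨ LCyc.completeTheory ℚ] :
    DCO (relOf M) := by
  have key : ∀ σ : LCyc.Sentence, ℚ ⊨ σ → M ⊨ σ := fun σ hσ =>
    Theory.realize_sentence_of_mem (LCyc.completeTheory ℚ) hσ
  have h := dco_rat
  exact ⟨real1.1 (key _ (real1.2 h.cyc)), real2.1 (key _ (real2.2 h.asymm)),
    real3.1 (key _ (real3.2 h.trans)), real4.1 (key _ (real4.2 h.total)),
    real5.1 (key _ (real5.2 h.dense)), real6.1 (key _ (real6.2 h.nontriv))⟩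

end Pool.Agent.R611
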